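import Pool.Agent.K6.H64.VC.SecMain

/-!
# The infinitesimal neighbourhood of the zero scheme of a section of a rank two bundle

Let `E` be an indecomposable vector bundle of rank two on `P^n`, `n ≥ 4`, and let `X` be the zero
scheme of a section of `E(m)`, of codimension two or empty.  (For `m` large the general section of
`E(m)` has a smooth connected zero scheme `X`; for `n = 4` it is a surface.)  Let `c` be the first
Chern class of `E(m)`; so the canonical sheaf of `X` is `O_X(c - n - 1)`.  Then

  `h^1(I_X) + h^1(I_X^2(c)) ≥ (n + 1)^2 - 2`.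

If `X` is reduced and connected, then `h^1(I_X) = 0`, and the statement says: the forms of degree `c`
cut out on the first infinitesimal neighbourhood of `X` a linear system of codimension at least
`(n + 1)^2 - 2` in the complete one.  For `n = 4` this number is `23`.  (For the abelian surfaces in
`P^4` the bundle is the Horrocks-Mumford bundle, and `c = 5`.)

The proof.  (1) Put `F = E(m)`.  For a trace free endomorphism `Y` of `F` put `q(Y) = s ∧ Y s`.  This
gives an exact sequence `0 → F(-c) → End_0 F → I_X^2(c) → 0`, and together with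
`0 → O(-c) → F(-c) → I_X → 0` it gives `h^1(End_0 F) ≤ h^1(I_X) + h^1(I_X^2(c))`.
(2) The Atiyah class maps the space of the linear vector fields to `H^1(End_0 F)`, and the kernel
consists of the vector fields which lift to `F`.  By the theorem `MP_b01859_ag.SymmetryAlgebra` of the
starting files its dimension is at most two.
The cohomology is computed with Čech cocycles of matrices of rational functions.
-/

set_option autoImplicit false

namespace Pool.Agent.Results.MP_745d3a_ag.InfinitesimalNeighbourhood

open MvPolynomial H960VB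

/-- the homogeneous coordinate ring of `P^n` -/
abbrev Poly (n : ℕ) : Type := MvPolynomial (Fin (n + 1)) ℂ

/-- the vectors of polynomials; the sections of the twists of `E` are among them -/
abbrev Vec {n : ℕ} (E : Bundle2 n) : Type := Fin E.a → Poly n

/-- the coordinates of the exterior product `G ∧ G'` -/
noncomputable def wedge {n a : ℕ} (G G' : Fin a → Poly n) (i j : Fin a) : Poly n :=
  G i * G' j - G j * G' i

/-- The first Chern class of `E` is `c₁`: the determinant of `E` is the line bundle `O(c₁)`, embedded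
in the exterior square of `⊕ O(β i)` by a vector `P` of forms of degree `β i + β j - c₁` without
common zeros; so all the exterior products of the sections of the twists of `E` are multiples
of `P`. -/
def IsFirstChernClass {n : ℕ} (E : Bundle2 n) (c₁ : ℤ) : Prop :=
  ∃ P : Fin E.a → Fin E.a → Poly n, (∀ i j, HomZ (P i j) (E.β i + E.β j - c₁)) ∧
    (∀ x : Fin (n + 1) → ℂ, x ≠ 0 → ∃ i j, eval x (P i j) ≠ 0) ∧
    ∀ m m' G G', E.IsSection m G → E.IsSection m' G' →
      ∃ κ : Poly n, ∀ i j, wedge G G' i j = κ * P i j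

/-- the ideal generated by the coordinates of the section; it defines the zero scheme `X` -/
noncomputable def zeroIdeal {n : ℕ} (E : Bundle2 n) (G : Vec E) : Ideal (Poly n) := Ideal.span (Set.range G)

/-- `f` is in the ideal generated by `I` in the local ring of the point `x` -/
def InLocal {n : ℕ} (x : Fin (n + 1) → ℂ) (I : Ideal (Poly n)) (f : Poly n) : Prop :=
  ∃ h : Poly n, eval x h ≠ 0 ∧ h * f ∈ I

/-- `a ≠ 0` and `b` is a nonzerodivisor modulo `a` in the local ring of the point `x` -/
def RegularAt {n : ℕ} (x : Fin (n + 1) → ℂ) (a b : Poly n) : Prop :=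
  a ≠ 0 ∧ ∀ p, InLocal x (Ideal.span {a}) (b * p) → InLocal x (Ideal.span {a}) p

/-- The zero scheme of the section `G₀` has codimension two or is empty: near every point there is a
basis `G, G'` of `E` such that the two coordinates `G₀ ∧ G'` and `G ∧ G₀` of `G₀` (in units of the
function `G ∧ G'`) are not both zero at the point, or form a regular sequence in the local ring
of the point. -/
def CodimTwo {n : ℕ} (E : Bundle2 n) (G₀ : Vec E) : Prop :=
  ∀ x : Fin (n + 1) → ℂ, x ≠ 0 → ∃ (m m' : ℤ) (G G' : Vec E) (i j : Fin E.a),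
    E.IsSection m G ∧ E.IsSection m' G' ∧ eval x (wedge G G' i j) ≠ 0 ∧
    ((eval x (wedge G₀ G' i j) ≠ 0 ∨ eval x (wedge G G₀ i j) ≠ 0) ∨
      RegularAt x (wedge G₀ G' i j) (wedge G G₀ i j))

/-- The functions `s i / (x i) ^ N` of degree `k` on the open sets `x i ≠ 0` agree on the overlaps
modulo the ideal `𝔞` of the scheme `Y`: they form a global section of `O_Y(k)`.  (Every global
section of `O_Y(k)` is of this form.) -/
def IsSectionOf {n : ℕ} (𝔞 : Ideal (Poly n)) (k : ℤ) (N : ℕ) (s : Fin (n + 1) → Poly n) : Prop :=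
  (∀ i, HomZ (s i) (k + N)) ∧
    ∀ i j, ∃ M : ℕ, (X i * X j) ^ M * (X i ^ N * s j - X j ^ N * s i) ∈ 𝔞

/-- `h^1(I_Y(k)) ≤ c`, where `Y` is the scheme defined by the ideal `𝔞`: there are `c` sections
`s' a / x ^ N'` of `O_Y(k)` such that every section `s / x ^ N` of `O_Y(k)` is the sum of a linear
combination of them and of the restriction of a form `f` of degree `k`.  (The cokernel of
`H^0(O(k)) → H^0(O_Y(k))` is `H^1(I_Y(k))`.) -/
def H1Le {n : ℕ} (𝔞 : Ideal (Poly n)) (k : ℤ) (c : ℕ) : Prop :=
  ∃ (N' : ℕ) (s' : Fin c → Fin (n + 1) → Poly n), (∀ a, IsSectionOf 𝔞 k N' (s' a)) ∧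
    ∀ (N : ℕ) (s : Fin (n + 1) → Poly n), IsSectionOf 𝔞 k N s →
      ∃ (μ : Fin c → ℂ) (f : Poly n), HomZ f k ∧ ∀ i, ∃ M : ℕ,
        X i ^ M * (X i ^ N' * s i - X i ^ N * ∑ a, C (μ a) * s' a i - X i ^ (N + N') * f) ∈ 𝔞

/-- Let `E` be an indecomposable bundle of rank two on `P^n`, `n ≥ 4`, with first Chern class `c₁`,
and `X` the zero scheme of a section of `E(m)`, of codimension two or empty.  Then
`h^1(I_X) + h^1(I_X^2(c)) ≥ (n + 1)^2 - 2`, where `c = c₁ + 2 m` is the first Chern class of `E(m)`. -/
theorem result {n : ℕ} (hn : 4 ≤ n) (E : Bundle2 n) (hE : ¬ E.Splits) (c₁ : ℤ)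
    (hc₁ : IsFirstChernClass E c₁) (m : ℤ) (G : Vec E) (hG : E.IsSection m G)
    (hcod : CodimTwo E G) (a b : ℕ) (ha : H1Le (zeroIdeal E G) 0 a)
    (hb : H1Le (zeroIdeal E G ^ 2) (c₁ + 2 * m) b) :
    (n + 1) ^ 2 - 2 ≤ a + b := by
  obtain ⟨P, hP⟩ := hc₁
  have hle : ∀ 𝔞 k c, H1Le 𝔞 k c → Pool.Agent.K6.H64.VB.H1LeI (n := n) 𝔞 k c := by
    rintro 𝔞 k c ⟨N', s', -, hs⟩
    exact ⟨N', s', hs⟩
  have := Pool.Agent.K6.H64.VB.sec1 hn hE hP hG hcod (hle _ _ _ ha) (hle _ _ _ hb)
  omega

end Pool.Agent.Results.MP_745d3a_ag.InfinitesimalNeighbourhood
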