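import Pool.Agent.K6.H27.ZS.Main
import Pool.Agent.K6.H27.ZS.Chern

/-!
# Infinitesimal symmetries of the zero schemes of the sections of a rank two bundle

Let `E` be an indecomposable vector bundle of rank two on `P^n`, `n ≥ 4`.  There is a diagonalisable
matrix `D` with integer eigenvalues, which depends only on `E`, with the following property.  Let
`X` be the zero scheme of any section of any twist `E(m)`, of codimension two or empty, and let `V`
be the Lie algebra of the infinitesimal linear symmetries of `X`: the matrices `A` such that the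
linear vector field `x ↦ A x` maps the ideal `I_X` into its saturation.  Then

  `dim V ≤ dim (V ∩ ⟨1, D⟩) + h^1(I_X) ≤ 2 + h^1(I_X)`,

and if `h^1(I_X) = 0` (for instance if `X` is reduced and connected) then `V ⊆ ⟨1, D⟩`: the
projective symmetries of `X` are at most one-dimensional, and for all these `X` (all sections of all
twists) they are in the same one-dimensional torus.

So `X` moves in a family of dimension at least `(n + 1)^2 - 2 - h^1(I_X)`, given by the linear
transformations (for connected reduced surfaces in `P^4`: at least `23`); and a locally complete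
intersection `X` of codimension two which is the zero scheme of a section of a bundle, with
`h^1(I_X) = 0` and two infinitesimal symmetries which are linearly independent modulo the scalars, is
a complete intersection.

The proof.  Let `F = E(m)`, `s` the section, and `A` in `V`.  On the open set `x_i ≠ 0` the vector
field has a lift `∇_i` to `F`, and the differences `∇_j - ∇_i` are trace free endomorphisms, a cocycle
representing the obstruction in `H^1(End_0 F)`.  Its image under `Y ↦ s ∧ Y s`, which maps `End_0 F`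
onto `I_X^2(c)`, is the coboundary of `s ∧ ∇_i s`.  If `s = f v + f' v'` in a local basis, then
`s ∧ ∇_i s = (f A(f') - f' A(f)) v ∧ v'` modulo `I_X^2`, and this is in `I_X^2` as `A` preserves `I_X`.
So the obstruction is in the image of `H^1(F(-c))`, and the kernel of `H^1(F(-c)) → H^1(I_X)` is zero
(as `H^1(O(-c)) = 0`).  The `A` with obstruction zero lift to `E`; by the theorem
`MP_b01859_ag.SymmetryAlgebra` of the starting files they are in `⟨1, D⟩`.
The cohomology is computed with Čech cocycles of matrices of rational functions.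
-/

set_option autoImplicit false

namespace Pool.Agent.Results.MP_745d3a_ag.SymmetriesOfZeroScheme

open MvPolynomial H960VB

/-- the homogeneous coordinate ring of `P^n` -/
abbrev Poly (n : ℕ) : Type := MvPolynomial (Fin (n + 1)) ℂ

/-- the vectors of polynomials; the sections of the twists of `E` are among them -/
abbrev Vec {n : ℕ} (E : Bundle2 n) : Type := Fin E.a → Poly n

/-- the coordinates of the exterior product `G ∧ G'` -/
noncomputable def wedge {n a : ℕ} (G G' : Fin a → Poly n) (i j : Fin a) : Poly n :=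
  G i * G' j - G j * G' i

/-- the ideal generated by the coordinates of the section; it defines the zero scheme `X` -/
noncomputable def zeroIdeal {n : ℕ} (E : Bundle2 n) (G : Vec E) : Ideal (Poly n) :=
  Ideal.span (Set.range G)

/-- `f` is in the ideal generated by `I` in the local ring of the point `x` -/
def InLocal {n : ℕ} (x : Fin (n + 1) → ℂ) (I : Ideal (Poly n)) (f : Poly n) : Prop :=
  ∃ h : Poly n, eval x h ≠ 0 ∧ h * f ∈ I

/-- `a ≠ 0` and `b` is a nonzerodivisor modulo `a` in the local ring of the point `x` -/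
def RegularAt {n : ℕ} (x : Fin (n + 1) → ℂ) (a b : Poly n) : Prop :=
  a ≠ 0 ∧ ∀ p, InLocal x (Ideal.span {a}) (b * p) → InLocal x (Ideal.span {a}) p

/-- The zero scheme of the section `G₀` has codimension two or is empty: near every point there is a
basis `G, G'` of `E` such that the two coordinates `G₀ ∧ G'` and `G ∧ G₀` of `G₀` (in units of the
function `G ∧ G'`) are not both zero at the point, or form a regular sequence in the local ring
of the point. -/
def CodimTwo {n : ℕ} (E : Bundle2 n) (G₀ : Vec E) : Prop :=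
  ∀ x : Fin (n + 1) → ℂ, x ≠ 0 → ∃ (m m' : ℤ) (G G' : Vec E) (i j : Fin E.a),
    E.IsSection m G ∧ E.IsSection m' G' ∧ eval x (wedge G G' i j) ≠ 0 ∧
    ((eval x (wedge G₀ G' i j) ≠ 0 ∨ eval x (wedge G G₀ i j) ≠ 0) ∨
      RegularAt x (wedge G₀ G' i j) (wedge G G₀ i j))

/-- The functions `s i / (x i) ^ N` of degree `k` on the open sets `x i ≠ 0` agree on the overlaps
modulo the ideal `𝔞` of the scheme `Y`: they form a global section of `O_Y(k)`.  (Every global
section of `O_Y(k)` is of this form.) -/
def IsSectionOf {n : ℕ} (𝔞 : Ideal (Poly n)) (k : ℤ) (N : ℕ) (s : Fin (n + 1) → Poly n) : Prop :=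
  (∀ i, HomZ (s i) (k + N)) ∧
    ∀ i j, ∃ M : ℕ, (X i * X j) ^ M * (X i ^ N * s j - X j ^ N * s i) ∈ 𝔞

/-- `h^1(I_Y(k)) ≤ c`, where `Y` is the scheme defined by the ideal `𝔞`: there are `c` sections
`s' a / x ^ N'` of `O_Y(k)` such that every section `s / x ^ N` of `O_Y(k)` is the sum of a linear
combination of them and of the restriction of a form `f` of degree `k`.  (The cokernel of
`H^0(O(k)) → H^0(O_Y(k))` is `H^1(I_Y(k))`.) -/
def H1Le {n : ℕ} (𝔞 : Ideal (Poly n)) (k : ℤ) (c : ℕ) : Prop :=
  ∃ (N' : ℕ) (s' : Fin c → Fin (n + 1) → Poly n), (∀ a, IsSectionOf 𝔞 k N' (s' a)) ∧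
    ∀ (N : ℕ) (s : Fin (n + 1) → Poly n), IsSectionOf 𝔞 k N s →
      ∃ (μ : Fin c → ℂ) (f : Poly n), HomZ f k ∧ ∀ i, ∃ M : ℕ,
        X i ^ M * (X i ^ N' * s i - X i ^ N * ∑ a, C (μ a) * s' a i - X i ^ (N + N') * f) ∈ 𝔞

/-- the derivative of the polynomial `f` along the linear vector field `x ↦ A x` -/
noncomputable def along {n : ℕ} (A : Matrix (Fin (n + 1)) (Fin (n + 1)) ℂ) (f : Poly n) : Poly n :=
  ∑ s, pderiv s f * ∑ t, C (A s t) * X t

/-- the linear vector field `x ↦ A x` is tangent to the scheme of the ideal `𝔞`: it maps `𝔞` into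
the saturation of `𝔞` -/
def IsTangent {n : ℕ} (𝔞 : Ideal (Poly n)) (A : Matrix (Fin (n + 1)) (Fin (n + 1)) ℂ) : Prop :=
  ∀ f ∈ 𝔞, ∀ l, ∃ M : ℕ, X l ^ M * along A f ∈ 𝔞

/-- the Lie algebra of the linear vector fields which are tangent to the zero scheme `X` of the
section `G`: the infinitesimal linear symmetries of `X` -/
noncomputable def symmetries {n : ℕ} (E : Bundle2 n) (G : Vec E) :
    Submodule ℂ (Matrix (Fin (n + 1)) (Fin (n + 1)) ℂ) where
  carrier := {A | IsTangent (zeroIdeal E G) A}
  zero_mem' := (Pool.Agent.K6.H27.ZS.sym (zeroIdeal E G)).zero_mem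
  add_mem' := (Pool.Agent.K6.H27.ZS.sym (zeroIdeal E G)).add_mem
  smul_mem' := fun c _ h => (Pool.Agent.K6.H27.ZS.sym (zeroIdeal E G)).smul_mem c h

/-- the space generated by the identity and the diagonalisable matrix `Q (diag w) Q⁻¹` -/
noncomputable def torus {n : ℕ} (Q Q' : Matrix (Fin (n + 1)) (Fin (n + 1)) ℂ)
    (w : Fin (n + 1) → ℤ) : Submodule ℂ (Matrix (Fin (n + 1)) (Fin (n + 1)) ℂ) :=
  Submodule.span ℂ {Q * Matrix.diagonal (fun i => (w i : ℂ)) * Q', 1}

/-- Let `E` be an indecomposable bundle of rank two on `P^n`, `n ≥ 4`.  There is a diagonalisable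
matrix `D = Q (diag w) Q'`, `Q Q' = 1`, with integer eigenvalues `w`, such that for all sections of
all twists `E(m)` with a zero scheme `X` of codimension two (or empty), and `h^1(I_X) ≤ a`, the
dimension of the Lie algebra of the infinitesimal linear symmetries of `X` is at most `a` plus the
dimension of its intersection with `⟨1, D⟩`, so at most `2 + a`; and if `a = 0`, it is contained
in `⟨1, D⟩`. -/
theorem result {n : ℕ} (hn : 4 ≤ n) (E : Bundle2 n) (hE : ¬ E.Splits) :
    ∃ (Q Q' : Matrix (Fin (n + 1)) (Fin (n + 1)) ℂ) (w : Fin (n + 1) → ℤ), Q * Q' = 1 ∧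
      ∀ (m : ℤ) (G : Vec E), E.IsSection m G → CodimTwo E G →
        ∀ a : ℕ, H1Le (zeroIdeal E G) 0 a →
          Module.finrank ℂ (symmetries E G) ≤
            Module.finrank ℂ (symmetries E G ⊓ torus Q Q' w : Submodule ℂ _) + a ∧
          Module.finrank ℂ (symmetries E G) ≤ 2 + a ∧
          (a = 0 → symmetries E G ≤ torus Q Q' w) := by
  obtain ⟨c₁, P, hP⟩ := Pool.Agent.K6.H27.ZS.exists_c1P (by omega : 1 ≤ n) E
  obtain ⟨Q, Q', w, hQ, hS⟩ := Pool.Agent.W615.structure_main hn hE
  refine ⟨Q, Q', w, hQ, fun m G hG hcod a ha => ?_⟩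
  have hle : Pool.Agent.K6.H64.VB.H1LeI (n := n) (Pool.Agent.K6.H64.VB.iX G) 0 a := by
    obtain ⟨N', s', -, hs⟩ := ha
    exact ⟨N', s', hs⟩
  have h1 : Module.finrank ℂ (symmetries E G) ≤
      Module.finrank ℂ (symmetries E G ⊓ torus Q Q' w : Submodule ℂ _) + a :=
    Pool.Agent.K6.H27.ZS.main hn hS hP hG hcod hle
  have h2 : Module.finrank ℂ (torus Q Q' w) ≤ 2 := Pool.Agent.K6.H64.VB.finrank_span_pair _ _
  have h3 : Module.finrank ℂ (symmetries E G ⊓ torus Q Q' w : Submodule ℂ _) ≤
      Module.finrank ℂ (torus Q Q' w) := Submodule.finrank_mono inf_le_right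
  refine ⟨h1, by omega, ?_⟩
  rintro rfl
  have h4 : symmetries E G ⊓ torus Q Q' w = symmetries E G :=
    Submodule.eq_of_le_of_finrank_le inf_le_left (by omega)
  exact inf_eq_left.1 h4

end Pool.Agent.Results.MP_745d3a_ag.SymmetriesOfZeroScheme
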