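import Pool.Agent.K6.H64.VB.Main

/-!
# The zero schemes of the twisted endomorphisms of a rank two bundle on `P^n`, `n ≥ 4`

Let `E` be an indecomposable vector bundle of rank two on `P^n`, `n ≥ 4`, let `d > 0` and let
`φ : E → E(d)` be a trace free homomorphism whose zero scheme `Z` has codimension three or is empty
(for `d` large every general `φ` is of this kind; for `n = 4` the scheme `Z` is a curve).  Then

  `∑_{j ≥ 0} h^1(I_Z(d - j d)) ≥ (n + 1)^2 - 2`.

So for `n = 4` the sum is at least `23`.  In particular `Z` is not empty and not arithmetically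
Cohen-Macaulay, and if `Z` is a reduced connected curve in `P^4`, then `h^1(I_Z(d)) ≥ 23`.

The proof.  (1) The Koszul complex of the section `φ` of the bundle `End_0 E(d)` gives exact sequences
`H^1(End_0 E(k - d)) → H^1(End_0 E(k)) → H^1(I_Z(k + d))`, where the first map is the bracket with
`φ`.  The square of the bracket is the multiplication by the discriminant of `φ` up to a term which is
zero in the cohomology, and a power of the discriminant kills the cohomology.  So
`h^1(End_0 E(k)) ≤ ∑_{j ≥ 0} h^1(I_Z(k + d - j d))`.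
(2) The Atiyah class maps the space of the linear vector fields to `H^1(End_0 E)`, and the kernel
consists of the vector fields which lift to `E`.  By the theorem `MP_b01859_ag.SymmetryAlgebra` of the
starting files its dimension is at most two.
The cohomology is computed with Čech cocycles of matrices of rational functions.
-/

set_option autoImplicit false

namespace Pool.Agent.Results.MP_745d3a_ag.TwistedEndomorphisms

open MvPolynomial H960VB

/-- the homogeneous coordinate ring of `P^n` -/
abbrev Poly (n : ℕ) : Type := MvPolynomial (Fin (n + 1)) ℂ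

/-- the vectors of polynomials; the sections of the twists of `E` are among them -/
abbrev Vec {n : ℕ} (E : Bundle2 n) : Type := Fin E.a → Poly n

/-- the coordinates of the exterior product `G ∧ G'` -/
noncomputable def wedge {n a : ℕ} (G G' : Fin a → Poly n) (i j : Fin a) : Poly n :=
  G i * G' j - G j * G' i

/-- `Φ` is a homomorphism `E → E(d)`, as an operator on the sections of the twists `E(m)`,
`m ∈ ℤ`: it sends the sections of `E(m)` to sections of `E(m + d)`, it is additive and
`Φ (p G) = p Φ G` for all homogeneous polynomials `p`. -/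
structure IsTwistedEndo {n : ℕ} (E : Bundle2 n) (d : ℤ) (Φ : Vec E → Vec E) : Prop where
  sec : ∀ m G, E.IsSection m G → E.IsSection (m + d) (Φ G)
  add : ∀ m G G', E.IsSection m G → E.IsSection m G' → Φ (G + G') = Φ G + Φ G'
  lin : ∀ m e (p : Poly n) G, E.IsSection m G → HomZ p e → Φ (p • G) = p • Φ G

/-- the trace of `Φ` is zero: `Φ G ∧ G' + G ∧ Φ G' = 0` for all sections -/
def TraceFree {n : ℕ} (E : Bundle2 n) (Φ : Vec E → Vec E) : Prop :=
  ∀ m m' G G', E.IsSection m G → E.IsSection m' G' → ∀ i j,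
    wedge (Φ G) G' i j + wedge G (Φ G') i j = 0

/-- the ideal generated by the coordinates of the exterior products `Φ G ∧ G'`; for a trace free
`Φ` it defines the zero scheme `Z` of `Φ` -/
noncomputable def zeroIdeal {n : ℕ} (E : Bundle2 n) (Φ : Vec E → Vec E) : Ideal (Poly n) :=
  Ideal.span {f | ∃ (m m' : ℤ) (G G' : Vec E) (i j : Fin E.a), E.IsSection m G ∧
    E.IsSection m' G' ∧ f = wedge (Φ G) G' i j}

/-- `f` is in the ideal generated by `I` in the local ring of the point `x` -/
def InLocal {n : ℕ} (x : Fin (n + 1) → ℂ) (I : Ideal (Poly n)) (f : Poly n) : Prop :=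
  ∃ h : Poly n, eval x h ≠ 0 ∧ h * f ∈ I

/-- `b` is a nonzerodivisor modulo `a ≠ 0` and `c` is a nonzerodivisor modulo `(a, b)`, in the
local ring of the point `x` -/
def RegularAt {n : ℕ} (x : Fin (n + 1) → ℂ) (a b c : Poly n) : Prop :=
  a ≠ 0 ∧ (∀ p, InLocal x (Ideal.span {a}) (b * p) → InLocal x (Ideal.span {a}) p) ∧
    ∀ p, InLocal x (Ideal.span {a, b}) (c * p) → InLocal x (Ideal.span {a, b}) p

/-- The zero scheme of the trace free `Φ` has codimension three or is empty: near every point there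
is a basis `G, G'` of `E` such that the three coefficients
`Φ G ∧ G'`, `G ∧ Φ G`, `Φ G' ∧ G'` of `Φ` (in units of the function `G ∧ G'`) are not all zero at
the point, or form a regular sequence in the local ring of the point. -/
def CodimThree {n : ℕ} (E : Bundle2 n) (Φ : Vec E → Vec E) : Prop :=
  ∀ x : Fin (n + 1) → ℂ, x ≠ 0 → ∃ (m m' : ℤ) (G G' : Vec E) (i j : Fin E.a),
    E.IsSection m G ∧ E.IsSection m' G' ∧ eval x (wedge G G' i j) ≠ 0 ∧
    ((eval x (wedge (Φ G) G' i j) ≠ 0 ∨ eval x (wedge G (Φ G) i j) ≠ 0 ∨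
        eval x (wedge (Φ G') G' i j) ≠ 0) ∨
      RegularAt x (wedge (Φ G) G' i j) (wedge G (Φ G) i j) (wedge (Φ G') G' i j))

/-- The functions `s i / (x i) ^ N` of degree `k` on the open sets `x i ≠ 0` agree on the overlaps
modulo the ideal of `Z`: they form a global section of `O_Z(k)`.  (Every global section of
`O_Z(k)` is of this form.) -/
def IsSectionOfZ {n : ℕ} (E : Bundle2 n) (Φ : Vec E → Vec E) (k : ℤ) (N : ℕ)
    (s : Fin (n + 1) → Poly n) : Prop :=
  (∀ i, HomZ (s i) (k + N)) ∧
    ∀ i j, ∃ M : ℕ, (X i * X j) ^ M * (X i ^ N * s j - X j ^ N * s i) ∈ zeroIdeal E Φ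

/-- `h^1(I_Z(k)) ≤ c`: there are `c` sections `s' a / x ^ N'` of `O_Z(k)` such that every section
`s / x ^ N` of `O_Z(k)` is the sum of a linear combination of them and of the restriction of a form
`f` of degree `k`.  (The cokernel of `H^0(O(k)) → H^0(O_Z(k))` is `H^1(I_Z(k))`.) -/
def H1Le {n : ℕ} (E : Bundle2 n) (Φ : Vec E → Vec E) (k : ℤ) (c : ℕ) : Prop :=
  ∃ (N' : ℕ) (s' : Fin c → Fin (n + 1) → Poly n), (∀ a, IsSectionOfZ E Φ k N' (s' a)) ∧
    ∀ (N : ℕ) (s : Fin (n + 1) → Poly n), IsSectionOfZ E Φ k N s →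
      ∃ (μ : Fin c → ℂ) (f : Poly n), HomZ f k ∧ ∀ i, ∃ M : ℕ,
        X i ^ M * (X i ^ N' * s i - X i ^ N * ∑ a, C (μ a) * s' a i - X i ^ (N + N') * f) ∈
          zeroIdeal E Φ

/-- Let `E` be an indecomposable bundle of rank two on `P^n`, `n ≥ 4`, and `Φ : E → E(d)`, `d > 0`,
trace free with zero scheme `Z` of codimension three or empty.  Then
`∑_{j ≥ 0} h^1(I_Z(d - j d)) ≥ (n + 1)^2 - 2`: if `c j` are upper bounds for the `h^1(I_Z(d - j d))`,
then some partial sum of the `c j` is at least `(n + 1)^2 - 2`. -/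
theorem result {n : ℕ} (hn : 4 ≤ n) (E : Bundle2 n) (hE : ¬ E.Splits) (d : ℤ) (hd : 0 < d)
    (Φ : Vec E → Vec E) (hΦ : IsTwistedEndo E d Φ) (htr : TraceFree E Φ)
    (hcod : CodimThree E Φ) (c : ℕ → ℕ) (hc : ∀ j : ℕ, H1Le E Φ (d - j * d) (c j)) :
    ∃ m, (n + 1) ^ 2 - 2 ≤ ∑ j ∈ Finset.range m, c j := by
  have h : Pool.Agent.K6.H64.VB.TwE E d Φ := ⟨hΦ.sec, hΦ.add, hΦ.lin, htr⟩
  have hle : ∀ k c, H1Le E Φ k c → Pool.Agent.K6.H64.VB.H1Le' E Φ k c := by
    rintro k c ⟨N', s', -, hs⟩
    exact ⟨N', s', hs⟩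
  obtain ⟨m, hm⟩ := Pool.Agent.K6.H64.VB.main1 hn hE hd h hcod c fun j => hle _ _ (hc j)
  exact ⟨m, by omega⟩

end Pool.Agent.Results.MP_745d3a_ag.TwistedEndomorphisms
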