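import Pool.Agent.Results.MP_745d3a_ag.TwistedEndomorphisms

/-!
# The zero schemes of the twisted endomorphisms of a rank two bundle: the twist by `d - 1`

Let `E` be an indecomposable vector bundle of rank two on `P^n`, `n ≥ 4`, let `d > 0` and let
`φ : E → E(d)` be a trace free homomorphism whose zero scheme `Z` has codimension three or is empty.
Then

  `∑_{j ≥ 0} h^1(I_Z(d - 1 - j d)) ≥ n + 1`.

So if `Z` is a reduced connected curve in `P^4` (and `d ≥ 2`), then the forms of degree `d - 1` cut
out on `Z` a linear system of codimension at least five in `H^0(O_Z(d - 1))`; and for `d = 1` the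
scheme `Z` is never a reduced connected curve.  (This is independent of the inequality for the twists
`d - j d` in `TwistedEndomorphisms`: for `d ≥ 2` the two sums have no common term.)

The proof.  The Atiyah class maps the space of the constant vector fields `∂_v` to
`H^1(End_0 E(-1))`, and this map is injective: if `∂_v` lifts to an operator of degree `-1` on the
sections of the twists of `E`, then the linear vector fields `l ∂_v` lift to `E` for all linear forms
`l`; they form a space of dimension `n + 1`, but by the theorem `MP_b01859_ag.SymmetryAlgebra` of the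
starting files the space of the liftable linear vector fields has dimension at most two.  The
inequality `h^1(End_0 E(-1)) ≤ ∑_{j ≥ 0} h^1(I_Z(-1 + d - j d))` is proved with the Koszul complex of
`φ`, as in `TwistedEndomorphisms`.
-/

set_option autoImplicit false

namespace Pool.Agent.Results.MP_745d3a_ag.ZeroSchemeNegativeTwist

open MvPolynomial H960VB Pool.Agent.Results.MP_745d3a_ag.TwistedEndomorphisms

/-- Let `E` be an indecomposable bundle of rank two on `P^n`, `n ≥ 4`, and `Φ : E → E(d)`, `d > 0`,
trace free with zero scheme `Z` of codimension three or empty.  Then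
`∑_{j ≥ 0} h^1(I_Z(d - 1 - j d)) ≥ n + 1`: if `c j` are upper bounds for the
`h^1(I_Z(d - 1 - j d))`, then some partial sum of the `c j` is at least `n + 1`. -/
theorem result {n : ℕ} (hn : 4 ≤ n) (E : Bundle2 n) (hE : ¬ E.Splits) (d : ℤ) (hd : 0 < d)
    (Φ : Vec E → Vec E) (hΦ : IsTwistedEndo E d Φ) (htr : TraceFree E Φ)
    (hcod : CodimThree E Φ) (c : ℕ → ℕ) (hc : ∀ j : ℕ, H1Le E Φ (d - 1 - j * d) (c j)) :
    ∃ m, n + 1 ≤ ∑ j ∈ Finset.range m, c j := by
  have h : Pool.Agent.K6.H64.VB.TwE E d Φ := ⟨hΦ.sec, hΦ.add, hΦ.lin, htr⟩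
  have hle : ∀ k c, H1Le E Φ k c → Pool.Agent.K6.H64.VB.H1Le' E Φ k c := by
    rintro k c ⟨N', s', -, hs⟩
    exact ⟨N', s', hs⟩
  exact Pool.Agent.K6.H64.VB.main2 hn hE hd h hcod c fun j => hle _ _ (hc j)

end Pool.Agent.Results.MP_745d3a_ag.ZeroSchemeNegativeTwist
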